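import Mathlib
import Pool.Agent.H34.Idio

namespace Pool.Agent.Results.MP_15d263_co.Aligned
open Pool.Agent.H34.TileDefs

/-- `T(x, y)` admits an idiomeric tiling whose tiles are unions of squares of the regular square
tiling exactly when `x` and `y` are not both even. -/
theorem result (x y : ℤ) (h : 2 ≤ max |x| |y|) :
    (∃ 𝒯, Idiomeric 𝒯 x y ∧ Aligned 𝒯) ↔ ¬ (Even x ∧ Even y) :=
  (Pool.Agent.H34.Idio.main x y h).2

end Pool.Agent.Results.MP_15d263_co.Aligned
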