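import Mathlib
import Pool.Agent.H34.Idio

namespace Pool.Agent.Results.MP_15d263_co.All
open Pool.Agent.H34.TileDefs

/-- Every `T(x, y)` with `max(|x|, |y|) ≥ 2` admits an idiomeric tiling of the plane. -/
theorem result (x y : ℤ) (h : 2 ≤ max |x| |y|) : ∃ 𝒯, Idiomeric 𝒯 x y :=
  (Pool.Agent.H34.Idio.main x y h).1

end Pool.Agent.Results.MP_15d263_co.All
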